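import Pool.Agent.Q54.EM.StmN

set_option autoImplicit false

namespace Pool.Agent.Q223.EM

open Pool.Agent.Q54.EM

private lemma bmono {a a' c c' y : ℝ} (ha : 0 ≤ a) (haa : a ≤ a') (ha' : a' ≤ 15456 / 100000)
    (hc : 458 / 1000 ≤ c) (hcc : c ≤ c') (hc' : c' ≤ 4724 / 10000) (hy : 1 ≤ y) (hy' : y ≤ 17 / 10) :
    (1 - c' + y) + a' * (c' ^ 2 + c' - (c' + 2) * y) ≤
      (1 - c + y) + a * (c ^ 2 + c - (c + 2) * y) := by
  have h1 : c' ^ 2 + c' - (c' + 2) * y ≤ 0 := by nlinarith
  have h2 : a' * (c' ^ 2 + c' - (c' + 2) * y) ≤ a * (c' ^ 2 + c' - (c' + 2) * y) :=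
    mul_le_mul_of_nonpos_right haa h1
  have h3 : a * (c + c' + 1 - y) ≤ 1 := by nlinarith
  have h4 : (1 - c + y) + a * (c ^ 2 + c - (c + 2) * y) -
      ((1 - c' + y) + a * (c' ^ 2 + c' - (c' + 2) * y)) = (c' - c) * (1 - a * (c + c' + 1 - y)) := by
    ring
  have h5 : 0 ≤ (c' - c) * (1 - a * (c + c' + 1 - y)) :=
    mul_nonneg (by linarith) (by linarith)
  linarith

private lemma bpos {a c y : ℝ} (ha : 0 ≤ a) (ha' : a ≤ 15456 / 100000)
    (hc : 458 / 1000 ≤ c) (hc' : c ≤ 4724 / 10000) (hy : 1 ≤ y) :
    0 < (1 - c + y) + a * (c ^ 2 + c - (c + 2) * y) := by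
  have h1 : a * (c + 2) ≤ 1 / 2 := by nlinarith
  have h2 : a * (c + 2) * y ≤ 1 / 2 * y := mul_le_mul_of_nonneg_right h1 (by linarith)
  have h3 : 0 ≤ a * (c ^ 2 + c) := by positivity
  nlinarith

/-- the convexity argument -/
private lemma core {q a c x y q1 q2 a1 a2 c1 c2 : ℝ} (hq1 : 37 / 100 ≤ q1) (hq2 : q2 ≤ 7 / 10)
    (ha1 : 0 ≤ a1) (ha2 : a2 ≤ 15456 / 100000) (h1 : q1 ≤ q) (h2 : q ≤ q2) (h3 : a1 ≤ a) (h4 : a ≤ a2)
    (hc1 : 458 / 1000 ≤ c1) (hc1c : c1 ≤ c) (hcc2 : c ≤ c2) (hc2 : c2 ≤ 4724 / 10000)
    (hyx : y ≤ x) (hy : 1 ≤ y) (hy' : y ≤ 17 / 10)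
    (H1 : (1 - c1 * a1) * (1 - q1 * y) * ((1 - c1 + y) + a1 * (c1 ^ 2 + c1 - (c1 + 2) * y)) <
      (1 - q2) * (1 - a2 * y) ^ 2)
    (H2 : 2 * (1 - q1) * a2 * (1 - a1 * y) + (1 - q1 * y) * (1 - 2 * a1) ≤
      (1 - c2 * a2) * q1 * ((1 - c2 + y) + a2 * (c2 ^ 2 + c2 - (c2 + 2) * y)))
    (hax : a * x ≤ 1) :
    (1 - c * a) * (1 - q * x) * (1 - c * (1 - c * a - a) + (1 - c * a - 2 * a) * x) <
      (1 - q) * (1 - a * x) ^ 2 := by
  have hqpos : 0 < q := by linarith
  have ha0 : 0 ≤ a := by linarith
  have hca : c * a ≤ 1 / 10 := by nlinarith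
  have hr0 : 0 < 1 - c * a := by linarith
  have hBx : 0 < 1 - c * (1 - c * a - a) + (1 - c * a - 2 * a) * x := by
    have := bpos (a := a) (c := c) (y := x) ha0 (by linarith) (by linarith) (by linarith)
      (by linarith)
    nlinarith
  rcases le_or_gt 1 (q * x) with hqx | hqx
  · rcases eq_or_lt_of_le hqx with he | hl
    · have h5 : 1 - q * x = 0 := by linarith
      have h6 : a * x < 1 := by
        have : a * x < q * x := mul_lt_mul_of_pos_right (by linarith) (by linarith)
        linarith
      rw [h5]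
      have h7 : 0 < (1 - a * x) ^ 2 := by
        have : 0 < 1 - a * x := by linarith
        positivity
      have h8 : 0 < (1 - q) * (1 - a * x) ^ 2 := mul_pos (by linarith) h7
      nlinarith
    · have h5 : (1 - c * a) * (1 - q * x) * (1 - c * (1 - c * a - a) + (1 - c * a - 2 * a) * x) < 0 := by
        have h6 : (1 - c * a) * (1 - q * x) < 0 := mul_neg_of_pos_of_neg hr0 (by linarith)
        exact mul_neg_of_neg_of_pos h6 hBx
      have h8 : 0 ≤ (1 - q) * (1 - a * x) ^ 2 := mul_nonneg (by linarith) (sq_nonneg _)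
      linarith
  · -- `q x < 1`
    have hqy : 0 < 1 - q * y := by
      have : q * y ≤ q * x := mul_le_mul_of_nonneg_left hyx hqpos.le
      linarith
    have hay : 0 ≤ 1 - a2 * y := by nlinarith
    have hay2 : a2 * y ≥ a * y := mul_le_mul_of_nonneg_right h4 (by linarith)
    have hay1 : a1 * y ≤ a * y := mul_le_mul_of_nonneg_right h3 (by linarith)
    have hq1y : q1 * y ≤ q * y := mul_le_mul_of_nonneg_right h1 (by linarith)
    have c1a1 : c1 * a1 ≤ c * a := mul_le_mul hc1c h3 ha1 (by linarith)
    have c2a2 : c * a ≤ c2 * a2 := mul_le_mul hcc2 h4 ha0 (by linarith)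
    have c2a2' : c2 * a2 ≤ 1 / 10 := by nlinarith
    have m1 := bmono (a := a1) (a' := a) (c := c1) (c' := c) (y := y) ha1 h3 (by linarith) hc1 hc1c
      (by linarith) hy hy'
    have m2 := bmono (a := a) (a' := a2) (c := c) (c' := c2) (y := y) ha0 h4 ha2 (by linarith) hcc2
      hc2 hy hy'
    have p2 := bpos (a := a2) (c := c2) (y := y) (by linarith) ha2 (by linarith) hc2 hy
    have p1 := bpos (a := a) (c := c) (y := y) ha0 (by linarith) (by linarith) (by linarith) hy
    set Bm := (1 - c + y) + a * (c ^ 2 + c - (c + 2) * y) with hBm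
    set B1 := (1 - c1 + y) + a1 * (c1 ^ 2 + c1 - (c1 + 2) * y) with hB1
    set B2 := (1 - c2 + y) + a2 * (c2 ^ 2 + c2 - (c2 + 2) * y) with hB2
    have G0 : (1 - c * a) * (1 - q * y) * Bm < (1 - q) * (1 - a * y) ^ 2 := by
      have e1 : (1 - c * a) * (1 - q * y) ≤ (1 - c1 * a1) * (1 - q1 * y) :=
        mul_le_mul (by linarith) (by linarith) hqy.le (by linarith)
      have e2 : (1 - c * a) * (1 - q * y) * Bm ≤ (1 - c1 * a1) * (1 - q1 * y) * B1 :=
        mul_le_mul e1 m1 p1.le (mul_nonneg (by linarith) (by linarith))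
      have e3 : (1 - a2 * y) ^ 2 ≤ (1 - a * y) ^ 2 := pow_le_pow_left₀ hay (by linarith) 2
      have e4 : (1 - q2) * (1 - a2 * y) ^ 2 ≤ (1 - q) * (1 - a * y) ^ 2 :=
        mul_le_mul (by linarith) e3 (sq_nonneg _) (by linarith)
      linarith
    have G1 : 0 ≤ -(2 * (1 - q) * a * (1 - a * y)) + (1 - c * a) * q * Bm -
        (1 - c * a) * (1 - q * y) * (1 - c * a - 2 * a) := by
      have e1 : (1 - c2 * a2) * q1 ≤ (1 - c * a) * q :=
        mul_le_mul (by linarith) h1 (by linarith) hr0.le
      have e2 : (1 - c2 * a2) * q1 * B2 ≤ (1 - c * a) * q * Bm :=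
        mul_le_mul e1 m2 p2.le (mul_nonneg hr0.le hqpos.le)
      have e3 : 2 * (1 - q) * a ≤ 2 * (1 - q1) * a2 :=
        mul_le_mul (by linarith) h4 ha0 (by linarith)
      have e4 : 2 * (1 - q) * a * (1 - a * y) ≤ 2 * (1 - q1) * a2 * (1 - a1 * y) :=
        mul_le_mul e3 (by linarith) (by linarith)
          (mul_nonneg (mul_nonneg (by norm_num) (by linarith)) (by linarith))
      have e5 : (1 - c * a) * (1 - q * y) ≤ 1 - q1 * y := by
        have h0 : 0 ≤ c * a := mul_nonneg (by linarith) ha0
        nlinarith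
      have h0 : 0 ≤ c * a := mul_nonneg (by linarith) ha0
      have e6 : (1 - c * a) * (1 - q * y) * (1 - c * a - 2 * a) ≤ (1 - q1 * y) * (1 - 2 * a1) :=
        mul_le_mul e5 (by linarith) (by linarith) (by linarith)
      linarith
    have G2 : 0 ≤ (1 - q) * a ^ 2 + (1 - c * a) * q * (1 - c * a - 2 * a) := by
      have e1 : 0 ≤ (1 - q) * a ^ 2 := mul_nonneg (by linarith) (sq_nonneg _)
      have e2 : 0 ≤ (1 - c * a) * q * (1 - c * a - 2 * a) :=
        mul_nonneg (mul_nonneg hr0.le hqpos.le) (by linarith)
      linarith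
    have hu : 0 ≤ x - y := by linarith
    have key : (1 - q) * (1 - a * x) ^ 2 -
        (1 - c * a) * (1 - q * x) * (1 - c * (1 - c * a - a) + (1 - c * a - 2 * a) * x) =
        ((1 - q) * (1 - a * y) ^ 2 - (1 - c * a) * (1 - q * y) * Bm) +
        (x - y) * (-(2 * (1 - q) * a * (1 - a * y)) + (1 - c * a) * q * Bm -
          (1 - c * a) * (1 - q * y) * (1 - c * a - 2 * a)) +
        (x - y) ^ 2 * ((1 - q) * a ^ 2 + (1 - c * a) * q * (1 - c * a - 2 * a)) := by
      rw [hBm]; ring
    have t1 := mul_nonneg hu G1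
    have t2 := mul_nonneg (sq_nonneg (x - y)) G2
    linarith

private lemma boxE {q1 q2 a1 a2 y q a c x : ℝ} (hq1 : 62 / 100 ≤ q1) (hq2 : q2 ≤ 686 / 1000)
    (ha1 : 0 ≤ a1) (ha2 : a2 ≤ 15456 / 100000) (h1 : q1 ≤ q) (h2 : q ≤ q2) (h3 : a1 ≤ a) (h4 : a ≤ a2)
    (hc1 : 458 / 1000 + 88 / 1000 * a ≤ c) (hc2 : c ≤ 4724 / 10000)
    (hx : (c + 6 / 100 * q / (1 - c * a) ^ 2) / (1 - q) ≤ x) (hax : a * x ≤ 1)
    (hy : 1 ≤ y) (hy' : y ≤ 17 / 10)
    (hy0 : y * (1 - q1) ≤ (458 / 1000 + 88 / 1000 * a1) +
      6 / 100 * q1 / (1 - (458 / 1000 + 88 / 1000 * a1) * a1) ^ 2)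
    (H1 : (1 - (458 / 1000 + 88 / 1000 * a1) * a1) * (1 - q1 * y) *
      ((1 - (458 / 1000 + 88 / 1000 * a1) + y) + a1 * ((458 / 1000 + 88 / 1000 * a1) ^ 2 +
      (458 / 1000 + 88 / 1000 * a1) - ((458 / 1000 + 88 / 1000 * a1) + 2) * y)) <
      (1 - q2) * (1 - a2 * y) ^ 2)
    (H2 : 2 * (1 - q1) * a2 * (1 - a1 * y) + (1 - q1 * y) * (1 - 2 * a1) ≤
      (1 - 4724 / 10000 * a2) * q1 * ((1 - 4724 / 10000 + y) + a2 * ((4724 / 10000) ^ 2 +
        4724 / 10000 - (4724 / 10000 + 2) * y))) :
    (1 - c * a) * (1 - q * x) * (1 - c * (1 - c * a - a) + (1 - c * a - 2 * a) * x) <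
      (1 - q) * (1 - a * x) ^ 2 := by
  set c1 : ℝ := 458 / 1000 + 88 / 1000 * a1 with hc1def
  have hc1c : c1 ≤ c := by rw [hc1def]; linarith
  have hc458 : 458 / 1000 ≤ c1 := by rw [hc1def]; linarith
  have ha0 : 0 ≤ a := by linarith
  have hca : c * a ≤ 1 / 10 := by nlinarith
  have c1a1 : c1 * a1 ≤ c * a := mul_le_mul hc1c h3 ha1 (by linarith)
  have hxy : y ≤ x := by
    have e1 : c + 6 / 100 * q / (1 - c * a) ^ 2 ≤ x * (1 - q) := by
      rwa [div_le_iff₀ (by linarith)] at hx
    have e2 : 6 / 100 * q1 / (1 - c1 * a1) ^ 2 ≤ 6 / 100 * q / (1 - c * a) ^ 2 := by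
      apply div_le_div₀ (by linarith) (by linarith) (pow_pos (by linarith) 2)
      exact pow_le_pow_left₀ (by linarith) (by linarith) 2
    have e3 : 0 < x := by
      have e4 : 0 ≤ 6 / 100 * q / (1 - c * a) ^ 2 :=
        div_nonneg (by linarith) (sq_nonneg _)
      by_contra hcon
      push Not at hcon
      have : x * (1 - q) ≤ 0 := mul_nonpos_of_nonpos_of_nonneg hcon (by linarith)
      linarith
    have e5 : x * (1 - q) ≤ x * (1 - q1) := mul_le_mul_of_nonneg_left (by linarith) e3.le
    have e6 : y * (1 - q1) ≤ x * (1 - q1) := by linarith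
    exact le_of_mul_le_mul_right e6 (by linarith)
  exact core (q1 := q1) (q2 := q2) (a1 := a1) (a2 := a2) (c1 := c1) (c2 := 4724 / 10000) (y := y)
    (by linarith) (by linarith) ha1 ha2 h1 h2 h3 h4 hc458 hc1c hc2 le_rfl hxy hy hy' H1 H2 hax

theorem bxe : S_BXE := by
  intro q a c x g1 g2 g3 g4 hc1 hc2 hx hax
  rcases le_total q (653 / 1000) with h1 | h1
  · rcases le_total q (1273 / 2000) with h2 | h2
    · rcases le_total a (483 / 6250) with h3 | h3
      · rcases le_total q (2513 / 4000) with h4 | h4
        · rcases le_total a (483 / 12500) with h5 | h5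
          · rcases le_total q (4993 / 8000) with h6 | h6
            · rcases le_total a (483 / 25000) with h7 | h7
              · exact boxE (q1 := 31 / 50) (q2 := 4993 / 8000) (a1 := 0) (a2 := 483 / 25000) (y := 1303 / 1000)
                  (by norm_num) (by norm_num) (by norm_num) (by norm_num) (by linarith) (by linarith) (by linarith) (by linarith)
                  hc1 hc2 hx hax (by norm_num) (by norm_num) (by norm_num) (by norm_num) (by norm_num)
              · exact boxE (q1 := 31 / 50) (q2 := 4993 / 8000) (a1 := 483 / 25000) (a2 := 483 / 12500) (y := 1309 / 1000)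
                  (by norm_num) (by norm_num) (by norm_num) (by norm_num) (by linarith) (by linarith) (by linarith) (by linarith)
                  hc1 hc2 hx hax (by norm_num) (by norm_num) (by norm_num) (by norm_num) (by norm_num)
            · exact boxE (q1 := 4993 / 8000) (q2 := 2513 / 4000) (a1 := 0) (a2 := 483 / 12500) (y := 659 / 500)
                (by norm_num) (by norm_num) (by norm_num) (by norm_num) (by linarith) (by linarith) (by linarith) (by linarith)
                hc1 hc2 hx hax (by norm_num) (by norm_num) (by norm_num) (by norm_num) (by norm_num)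
          · rcases le_total q (4993 / 8000) with h6 | h6
            · rcases le_total a (1449 / 25000) with h7 | h7
              · exact boxE (q1 := 31 / 50) (q2 := 4993 / 8000) (a1 := 483 / 12500) (a2 := 1449 / 25000) (y := 263 / 200)
                  (by norm_num) (by norm_num) (by norm_num) (by norm_num) (by linarith) (by linarith) (by linarith) (by linarith)
                  hc1 hc2 hx hax (by norm_num) (by norm_num) (by norm_num) (by norm_num) (by norm_num)
              · exact boxE (q1 := 31 / 50) (q2 := 4993 / 8000) (a1 := 1449 / 25000) (a2 := 483 / 6250) (y := 661 / 500)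
                  (by norm_num) (by norm_num) (by norm_num) (by norm_num) (by linarith) (by linarith) (by linarith) (by linarith)
                  hc1 hc2 hx hax (by norm_num) (by norm_num) (by norm_num) (by norm_num) (by norm_num)
            · exact boxE (q1 := 4993 / 8000) (q2 := 2513 / 4000) (a1 := 483 / 12500) (a2 := 483 / 6250) (y := 133 / 100)
                (by norm_num) (by norm_num) (by norm_num) (by norm_num) (by linarith) (by linarith) (by linarith) (by linarith)
                hc1 hc2 hx hax (by norm_num) (by norm_num) (by norm_num) (by norm_num) (by norm_num)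
        · rcases le_total a (483 / 12500) with h5 | h5
          · exact boxE (q1 := 2513 / 4000) (q2 := 1273 / 2000) (a1 := 0) (a2 := 483 / 12500) (y := 1333 / 1000)
              (by norm_num) (by norm_num) (by norm_num) (by norm_num) (by linarith) (by linarith) (by linarith) (by linarith)
              hc1 hc2 hx hax (by norm_num) (by norm_num) (by norm_num) (by norm_num) (by norm_num)
          · exact boxE (q1 := 2513 / 4000) (q2 := 1273 / 2000) (a1 := 483 / 12500) (a2 := 483 / 6250) (y := 673 / 500)
              (by norm_num) (by norm_num) (by norm_num) (by norm_num) (by linarith) (by linarith) (by linarith) (by linarith)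
              hc1 hc2 hx hax (by norm_num) (by norm_num) (by norm_num) (by norm_num) (by norm_num)
      · rcases le_total q (2513 / 4000) with h4 | h4
        · rcases le_total a (1449 / 12500) with h5 | h5
          · rcases le_total q (4993 / 8000) with h6 | h6
            · rcases le_total a (483 / 5000) with h7 | h7
              · exact boxE (q1 := 31 / 50) (q2 := 4993 / 8000) (a1 := 483 / 6250) (a2 := 483 / 5000) (y := 166 / 125)
                  (by norm_num) (by norm_num) (by norm_num) (by norm_num) (by linarith) (by linarith) (by linarith) (by linarith)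
                  hc1 hc2 hx hax (by norm_num) (by norm_num) (by norm_num) (by norm_num) (by norm_num)
              · exact boxE (q1 := 31 / 50) (q2 := 4993 / 8000) (a1 := 483 / 5000) (a2 := 1449 / 12500) (y := 667 / 500)
                  (by norm_num) (by norm_num) (by norm_num) (by norm_num) (by linarith) (by linarith) (by linarith) (by linarith)
                  hc1 hc2 hx hax (by norm_num) (by norm_num) (by norm_num) (by norm_num) (by norm_num)
            · exact boxE (q1 := 4993 / 8000) (q2 := 2513 / 4000) (a1 := 483 / 6250) (a2 := 1449 / 12500) (y := 1343 / 1000)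
                (by norm_num) (by norm_num) (by norm_num) (by norm_num) (by linarith) (by linarith) (by linarith) (by linarith)
                hc1 hc2 hx hax (by norm_num) (by norm_num) (by norm_num) (by norm_num) (by norm_num)
          · rcases le_total q (4993 / 8000) with h6 | h6
            · rcases le_total a (3381 / 25000) with h7 | h7
              · exact boxE (q1 := 31 / 50) (q2 := 4993 / 8000) (a1 := 1449 / 12500) (a2 := 3381 / 25000) (y := 1341 / 1000)
                  (by norm_num) (by norm_num) (by norm_num) (by norm_num) (by linarith) (by linarith) (by linarith) (by linarith)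
                  hc1 hc2 hx hax (by norm_num) (by norm_num) (by norm_num) (by norm_num) (by norm_num)
              · exact boxE (q1 := 31 / 50) (q2 := 4993 / 8000) (a1 := 3381 / 25000) (a2 := 483 / 3125) (y := 337 / 250)
                  (by norm_num) (by norm_num) (by norm_num) (by norm_num) (by linarith) (by linarith) (by linarith) (by linarith)
                  hc1 hc2 hx hax (by norm_num) (by norm_num) (by norm_num) (by norm_num) (by norm_num)
            · exact boxE (q1 := 4993 / 8000) (q2 := 2513 / 4000) (a1 := 1449 / 12500) (a2 := 483 / 3125) (y := 1357 / 1000)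
                (by norm_num) (by norm_num) (by norm_num) (by norm_num) (by linarith) (by linarith) (by linarith) (by linarith)
                hc1 hc2 hx hax (by norm_num) (by norm_num) (by norm_num) (by norm_num) (by norm_num)
        · rcases le_total a (1449 / 12500) with h5 | h5
          · exact boxE (q1 := 2513 / 4000) (q2 := 1273 / 2000) (a1 := 483 / 6250) (a2 := 1449 / 12500) (y := 1359 / 1000)
              (by norm_num) (by norm_num) (by norm_num) (by norm_num) (by linarith) (by linarith) (by linarith) (by linarith)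
              hc1 hc2 hx hax (by norm_num) (by norm_num) (by norm_num) (by norm_num) (by norm_num)
          · exact boxE (q1 := 2513 / 4000) (q2 := 1273 / 2000) (a1 := 1449 / 12500) (a2 := 483 / 3125) (y := 343 / 250)
              (by norm_num) (by norm_num) (by norm_num) (by norm_num) (by linarith) (by linarith) (by linarith) (by linarith)
              hc1 hc2 hx hax (by norm_num) (by norm_num) (by norm_num) (by norm_num) (by norm_num)
    · rcases le_total a (483 / 6250) with h3 | h3
      · exact boxE (q1 := 1273 / 2000) (q2 := 653 / 1000) (a1 := 0) (a2 := 483 / 6250) (y := 273 / 200)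
          (by norm_num) (by norm_num) (by norm_num) (by norm_num) (by linarith) (by linarith) (by linarith) (by linarith)
          hc1 hc2 hx hax (by norm_num) (by norm_num) (by norm_num) (by norm_num) (by norm_num)
      · exact boxE (q1 := 1273 / 2000) (q2 := 653 / 1000) (a1 := 483 / 6250) (a2 := 483 / 3125) (y := 1391 / 1000)
          (by norm_num) (by norm_num) (by norm_num) (by norm_num) (by linarith) (by linarith) (by linarith) (by linarith)
          hc1 hc2 hx hax (by norm_num) (by norm_num) (by norm_num) (by norm_num) (by norm_num)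
  · exact boxE (q1 := 653 / 1000) (q2 := 343 / 500) (a1 := 0) (a2 := 483 / 3125) (y := 179 / 125)
      (by norm_num) (by norm_num) (by norm_num) (by norm_num) (by linarith) (by linarith) (by linarith) (by linarith)
      hc1 hc2 hx hax (by norm_num) (by norm_num) (by norm_num) (by norm_num) (by norm_num)

end Pool.Agent.Q223.EM
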