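import Pool.Agent.Q54.EM.StmN

set_option autoImplicit false

namespace Pool.Agent.Q223.EM

open Pool.Agent.Q54.EM Finset

private lemma ff_hasSum {q : ℝ} (h0 : 0 < q) (h1 : q < 1) :
    HasSum (fun n : ℕ => q ^ n / ((n : ℝ) + 1)) (ff q) := by
  have h := Real.hasSum_pow_div_log_of_abs_lt_one (x := q) (by rw [abs_of_pos h0]; exact h1)
  have h2 := h.div_const q
  have e : (fun n : ℕ => q ^ (n + 1) / ((n : ℝ) + 1) / q) = fun n : ℕ => q ^ n / ((n : ℝ) + 1) := by
    funext n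
    have : (n : ℝ) + 1 ≠ 0 := by positivity
    field_simp
    ring
  rw [e] at h2
  exact h2

private lemma phi_diff {q x c : ℝ} (hx : 0 < x) (hxq : x ≤ q) (hq : q < 1) (hc : 0 ≤ c) :
    (1 - c * q) * ff q - (1 - c * x) * ff x ≤
      (1 / 2 - c) * (q - x) + (1 / 3 - c / 2) * (q ^ 2 - x ^ 2) + (1 / 4 - c / 3) * (q ^ 3 - x ^ 3) +
        (1 / 5 - c / 4) * (q ^ 4 - x ^ 4) + (q ^ 5 / (1 - q) - x ^ 5 / (1 - x)) / 6 := by
  have hq0 : 0 < q := by linarith
  have hx1 : x < 1 := by linarith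
  have sq := ff_hasSum hq0 hq
  have sx := ff_hasSum hx hx1
  have d1 : HasSum (fun n : ℕ => (q ^ n - x ^ n) / ((n : ℝ) + 1)) (ff q - ff x) := by
    have := sq.sub sx
    simpa only [sub_div] using this
  have d2 : HasSum (fun n : ℕ => (q ^ (n + 1) - x ^ (n + 1)) / ((n : ℝ) + 1))
      (q * ff q - x * ff x) := by
    have := (sq.mul_left q).sub (sx.mul_left x)
    have e : (fun n : ℕ => (q ^ (n + 1) - x ^ (n + 1)) / ((n : ℝ) + 1)) =
        fun n : ℕ => q * (q ^ n / ((n : ℝ) + 1)) - x * (x ^ n / ((n : ℝ) + 1)) := by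
      funext n
      rw [pow_succ, pow_succ]
      ring
    rw [e]
    exact this
  have g1 : HasSum (fun n : ℕ => (q ^ (n + 5) - x ^ (n + 5)) / 6)
      ((q ^ 5 / (1 - q) - x ^ 5 / (1 - x)) / 6) := by
    have a1 := (hasSum_geometric_of_lt_one hq0.le hq).mul_left (q ^ 5)
    have a2 := (hasSum_geometric_of_lt_one hx.le hx1).mul_left (x ^ 5)
    have := (a1.sub a2).div_const 6
    have e : (fun n : ℕ => (q ^ (n + 5) - x ^ (n + 5)) / 6) =
        fun n : ℕ => (q ^ 5 * q ^ n - x ^ 5 * x ^ n) / 6 := by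
      funext n
      rw [pow_add, pow_add]
      ring
    rw [e, div_eq_mul_inv (q ^ 5), div_eq_mul_inv (x ^ 5)]
    exact this
  have pw : ∀ n : ℕ, x ^ n ≤ q ^ n := fun n => pow_le_pow_left₀ hx.le hxq n
  have t1 := (hasSum_nat_add_iff' 5).2 d1
  have c1 := hasSum_le (fun n : ℕ => by
    show (q ^ (n + 5) - x ^ (n + 5)) / (((n + 5 : ℕ) : ℝ) + 1) ≤ (q ^ (n + 5) - x ^ (n + 5)) / 6
    have h6 : (6 : ℝ) ≤ ((n + 5 : ℕ) : ℝ) + 1 := by
      push_cast
      have : (0 : ℝ) ≤ n := Nat.cast_nonneg n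
      linarith
    exact div_le_div_of_nonneg_left (by linarith [pw (n + 5)]) (by norm_num) h6) t1 g1
  have c2 := sum_le_hasSum (range 4) (fun n _ => by
    have : (0 : ℝ) ≤ (n : ℝ) + 1 := by positivity
    exact div_nonneg (by linarith [pw (n + 1)]) this) d2
  simp only [sum_range_succ, sum_range_zero, Nat.cast_ofNat, Nat.cast_one, Nat.cast_zero] at c1 c2
  norm_num at c1 c2
  have c3 := mul_le_mul_of_nonneg_left c2 hc
  linarith

theorem eb : S_SER → S_EB := by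
  intro ser q t c e q0 q1 t0 t1 c0 c1 c2 h15 e0 H
  have hx0 : 0 < q * (1 - t) := mul_pos q0 (by linarith)
  have hxq : q * (1 - t) ≤ q := by nlinarith
  have hqt : 0 ≤ q * (1 - t) := hx0.le
  have hc458 : 458 / 1000 ≤ c := by linarith
  obtain ⟨f1, -, f3, -⟩ := ser q t c q0 (by linarith) t0.le t1 c0 (by linarith)
  have hD := f3 e e0
  have hDp : 0 < Dp q t c e := by linarith
  constructor
  · by_contra hcon
    push Not at hcon
    -- divide by `q`
    have hlow : c * (2 / 10) * (1 + q / 2) < c * e * (1 + q / 2) := by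
      apply mul_lt_mul_of_pos_right _ (by linarith)
      exact mul_lt_mul_of_pos_left hcon (by linarith)
    have hs : 0 ≤ 1 - t := by linarith
    have u1 : (1 / 2 - c) * t ≤ (1 / 2 - c) := by nlinarith
    have u2 : (1 / 3 - c / 2) * (1 - (1 - t) ^ 2) ≤ (1 / 3 - c / 2) := by
      have : 0 ≤ (1 - t) ^ 2 := by positivity
      nlinarith
    have u3 : (1 / 4 - c / 3) * (1 - (1 - t) ^ 3) ≤ (1 / 4 - c / 3) := by
      have : 0 ≤ (1 - t) ^ 3 := by positivity
      nlinarith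
    have u4 : (1 / 5 - c / 4) * (1 - (1 - t) ^ 4) ≤ (1 / 5 - c / 4) := by
      have : 0 ≤ (1 - t) ^ 4 := by positivity
      nlinarith
    have hdiv : Dp q t c e = q * ((1 / 2 - c) * t + (1 / 3 - c / 2) * (1 - (1 - t) ^ 2) * q +
        (1 / 4 - c / 3) * (1 - (1 - t) ^ 3) * q ^ 2 + (1 / 5 - c / 4) * (1 - (1 - t) ^ 4) * q ^ 3 +
        q ^ 4 / (6 * (1 - q)) - c * e * (1 + q / 2)) := by
      rw [Dp]
      ring
    rw [hdiv] at hDp
    have hpos := (mul_pos_iff_of_pos_left q0).1 hDp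
    have v2 := mul_le_mul_of_nonneg_right u2 q0.le
    have v3 := mul_le_mul_of_nonneg_right u3 (by positivity : 0 ≤ q ^ 2)
    have v4 := mul_le_mul_of_nonneg_right u4 (by positivity : 0 ≤ q ^ 3)
    have v5 : q ^ 4 / (6 * (1 - q)) ≤ q ^ 4 * (27 / 100) := by
      rw [div_le_iff₀ (by linarith)]
      have : 0 ≤ q ^ 4 := by positivity
      nlinarith
    have w2 : q ^ 2 ≤ 1369 / 10000 := by nlinarith
    have w3 : q ^ 3 ≤ 50653 / 1000000 := by
      have := mul_le_mul w2 q1 q0.le (by norm_num)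
      nlinarith
    have w4 : q ^ 4 ≤ 1875 / 100000 := by
      have := mul_le_mul w3 q1 q0.le (by norm_num)
      nlinarith
    have w5 : 0 ≤ (c - 458 / 1000) * (1 + q / 2 + q ^ 2 / 3 + q ^ 3 / 4 + 2 / 10 * (1 + q / 2)) :=
      mul_nonneg (by linarith) (by positivity)
    linarith
  · intro t2
    have hq2 : q ≤ 1932 / 10000 := by nlinarith
    have hx1 : q * (1 - t) < 1 := by linarith
    have P := phi_diff hx0 hxq (by linarith) (by linarith : 0 ≤ c)
    have hff : 1 + q / 2 ≤ ff q := by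
      have : 0 ≤ q ^ 2 / 3 + q ^ 3 / 4 + q ^ 4 / 5 + q ^ 5 / 6 := by positivity
      linarith
    have hceq : 0 ≤ c * e * q := mul_nonneg (mul_nonneg (by linarith) e0) q0.le
    have L : c * e * q * (1 + q / 2) ≤ c * e * q * ff q := mul_le_mul_of_nonneg_left hff hceq
    have M : c * e * q * ff q < (1 - c * q) * ff q - (1 - c * (q * (1 - t))) * ff (q * (1 - t)) := by
      linarith
    -- `q ^ j - x ^ j ≤ j t q ^ j`
    have p1 : q - q * (1 - t) = q * t := by ring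
    have p2 : q ^ 2 - (q * (1 - t)) ^ 2 ≤ q * t * (2 * q) := by
      have : 0 ≤ q ^ 2 * t ^ 2 := by positivity
      nlinarith
    have p3 : q ^ 3 - (q * (1 - t)) ^ 3 ≤ q * t * (3 * q ^ 2) := by
      have h3 : q * t * (3 * q ^ 2) - (q ^ 3 - (q * (1 - t)) ^ 3) = q ^ 3 * t ^ 2 * (3 - t) := by ring
      have : 0 ≤ q ^ 3 * t ^ 2 * (3 - t) := mul_nonneg (by positivity) (by linarith)
      linarith
    have p4 : q ^ 4 - (q * (1 - t)) ^ 4 ≤ q * t * (4 * q ^ 3) := by
      have h3 : q * t * (4 * q ^ 3) - (q ^ 4 - (q * (1 - t)) ^ 4) =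
        q ^ 4 * t ^ 2 * (6 - 4 * t + t ^ 2) := by ring
      have : 0 ≤ q ^ 4 * t ^ 2 * (6 - 4 * t + t ^ 2) := mul_nonneg (by positivity) (by nlinarith)
      linarith
    have p5' : q ^ 5 - (q * (1 - t)) ^ 5 ≤ q * t * (5 * q ^ 4) := by
      have h3 : q * t * (5 * q ^ 4) - (q ^ 5 - (q * (1 - t)) ^ 5) =
        q ^ 5 * t ^ 2 * (10 - 10 * t + 5 * t ^ 2 - t ^ 3) := by ring
      have : 0 ≤ q ^ 5 * t ^ 2 * (10 - 10 * t + 5 * t ^ 2 - t ^ 3) := by
        apply mul_nonneg (by positivity)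
        nlinarith [mul_nonneg t0.le t0.le, pow_pos t0 3, pow_le_one₀ t0.le t1.le (n := 3)]
      linarith
    have p5 : q ^ 5 / (1 - q) - (q * (1 - t)) ^ 5 / (1 - q * (1 - t)) ≤ q * t * (8 * q ^ 4) := by
      have a1 : 0 < 1 - q := by linarith
      have a2 : 0 < 1 - q * (1 - t) := by linarith
      have a3 : 5 / 8 ≤ (1 - q) * (1 - q * (1 - t)) := by nlinarith
      rw [div_sub_div _ _ a1.ne' a2.ne', div_le_iff₀ (mul_pos a1 a2)]
      have a4 : (q * (1 - t)) ^ 4 ≤ q ^ 4 := pow_le_pow_left₀ hqt hxq 4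
      have a5 : 0 ≤ q * (q * (1 - t)) * (q ^ 4 - (q * (1 - t)) ^ 4) :=
        mul_nonneg (mul_nonneg q0.le hqt) (by linarith)
      have a6 : q ^ 5 * (1 - q * (1 - t)) - (1 - q) * (q * (1 - t)) ^ 5 =
        q ^ 5 - (q * (1 - t)) ^ 5 - q * (q * (1 - t)) * (q ^ 4 - (q * (1 - t)) ^ 4) := by ring
      have a7 : 0 ≤ q * t * (8 * q ^ 4) := by positivity
      have a8 := mul_le_mul_of_nonneg_left a3 a7
      have a9 : q * t * (8 * q ^ 4) * (5 / 8) = q * t * (5 * q ^ 4) := by ring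
      linarith
    by_contra hcon
    push Not at hcon
    have n2 : 0 ≤ 1 / 3 - c / 2 := by linarith
    have n3 : 0 ≤ 1 / 4 - c / 3 := by linarith
    have n4 : 0 ≤ 1 / 5 - c / 4 := by linarith
    have r2 := mul_le_mul_of_nonneg_left p2 n2
    have r3 := mul_le_mul_of_nonneg_left p3 n3
    have r4 := mul_le_mul_of_nonneg_left p4 n4
    rw [p1] at P
    have hqt0 : 0 < q * t := mul_pos q0 t0
    have low : q * t * (c * (2 / 10) * (1 + q / 2)) < c * e * q * (1 + q / 2) := by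
      have : 0 < c * q * (1 + q / 2) := by positivity
      have h2 := mul_lt_mul_of_pos_left hcon this
      linarith
    have tot : q * t * (c * (2 / 10) * (1 + q / 2)) < q * t * ((1 / 2 - c) + (1 / 3 - c / 2) * (2 * q) +
        (1 / 4 - c / 3) * (3 * q ^ 2) + (1 / 5 - c / 4) * (4 * q ^ 3) + 8 * q ^ 4 / 6) := by
      have : q * t * ((1 / 2 - c) + (1 / 3 - c / 2) * (2 * q) +
        (1 / 4 - c / 3) * (3 * q ^ 2) + (1 / 5 - c / 4) * (4 * q ^ 3) + 8 * q ^ 4 / 6) =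
        (1 / 2 - c) * (q * t) + (1 / 3 - c / 2) * (q * t * (2 * q)) +
        (1 / 4 - c / 3) * (q * t * (3 * q ^ 2)) + (1 / 5 - c / 4) * (q * t * (4 * q ^ 3)) +
        q * t * (8 * q ^ 4) / 6 := by ring
      rw [this]
      linarith
    have fin := lt_of_mul_lt_mul_left tot hqt0.le
    have w2 : q ^ 2 ≤ 374 / 10000 := by nlinarith
    have w3 : q ^ 3 ≤ 723 / 100000 := by
      have := mul_le_mul w2 hq2 q0.le (by norm_num)
      nlinarith
    have w4 : q ^ 4 ≤ 1397 / 1000000 := by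
      have := mul_le_mul w3 hq2 q0.le (by norm_num)
      nlinarith
    have w5 : 0 ≤ (c - 458 / 1000) * (1 + q + q ^ 2 + q ^ 3 + 2 / 10 * (1 + q / 2)) :=
      mul_nonneg (by linarith) (by positivity)
    linarith

end Pool.Agent.Q223.EM
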